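import Pool.Agent.Q139.Rc.Q1

/-!
The least order of a rep-cube which contains all eleven nets of the unit cube is 13.
-/

open Q139.Rc Q139.Net

namespace Pool.Agent.Results.MP_a49afe_co.LeastOrderThirteen

/-- Q1: there is a rep-cube of order 13 (without holes) that contains all types of edge nets of the
unit cube, and no rep-cube of smaller order contains all types. -/
theorem result :
    (∃ s t, IsRepCube 13 s t ∧ SimpleBoundary s ∧ ContainsAll t) ∧
    ∀ (k : ℕ) (s : Finset Cell) (t : Fin k → Finset Cell),
      IsRepCube k s t → ContainsAll t → 13 ≤ k :=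
  ⟨exists13, fun _ _ _ h h' => thirteen_le h h'⟩

end Pool.Agent.Results.MP_a49afe_co.LeastOrderThirteen
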