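import Pool.Agent.Q139.Rc.Q2

/-!
A rep-cube of order 20 whose pieces are exactly the one-sided nets of the unit cube.
-/

open Q139.Rc Q139.Net

namespace Pool.Agent.Results.MP_a49afe_co.TwentyOneSided

/-- Q2 (Maekawa): there is a rep-cube of order 20 (without holes) such that all pieces are edge nets
of the unit cube, no two different pieces differ by a rotation and a translation, and every edge net
is a rotated and translated copy of a piece. -/
theorem result : ∃ (s : Finset Cell) (t : Fin 20 → Finset Cell), IsRepCube 20 s t ∧
    SimpleBoundary s ∧ (∀ i, IsEdgeNet (t i)) ∧ (∀ i j, i ≠ j → ¬ RotCongr (t i) (t j)) ∧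
    ∀ N, IsEdgeNet N → ∃ i, RotCongr N (t i) :=
  exists20

end Pool.Agent.Results.MP_a49afe_co.TwentyOneSided
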